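import Mathlib

set_option autoImplicit false

/-!
# The element `X₃` is nonzero in the quotient `Z_n` of the braid group algebra, for every `n ≥ 3`

The braid group `B_n` acts on the free module of rank one over the dual numbers
`k[ζ][ε]`, `ζ² + ζ + 1 = 0`, `ε² = 0`, by letting every generator act as `s = -ζ + ε`, and `q` acts as
`ζ`. Then `X₂` acts as `ζ ε`, `X₃` as `(ζ - 1) ε ≠ 0`, the elements `G₂ - F₂`, `G₃ - F₃` act as multiples
of `ε`, and `X₄` acts as `0`. So all relations of `Z_n` hold, and `X₃` is not zero in `Z_n`.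
-/

namespace Pool.Agent.Results.MP_2b4a1d_al.X3Nonzero

universe u

section definitions

/-- The defining relations of the braid group on `n` strands, for generators `σ_1, …, σ_{n-1}`
(the generator `σ_{i+1}` is indexed by `i : Fin (n - 1)`): `σ_i σ_{i+1} σ_i = σ_{i+1} σ_i σ_{i+1}`, and
`σ_i σ_j = σ_j σ_i` for `|i - j| ≥ 2`. -/
inductive BraidRel (n : ℕ) : FreeGroup (Fin (n - 1)) → Prop
  | braid (i j : Fin (n - 1)) (h : (i : ℕ) + 1 = j) : BraidRel n
      (FreeGroup.of i * FreeGroup.of j * FreeGroup.of i *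
        (FreeGroup.of j * FreeGroup.of i * FreeGroup.of j)⁻¹)
  | comm (i j : Fin (n - 1)) (h : (i : ℕ) + 2 ≤ j) : BraidRel n
      (FreeGroup.of i * FreeGroup.of j * (FreeGroup.of j * FreeGroup.of i)⁻¹)

/-- The braid group on `n` strands. -/
abbrev Braid (n : ℕ) : Type := PresentedGroup {w | BraidRel n w}

/-- The Artin generator `σ_j` of `B_n` for `1 ≤ j ≤ n - 1` (and, by convention, `1` for all other `j`,
a value which is never used in the relations of `Z_n` or, for `n ≥ 3`, in `X₃`). -/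
def sg (n j : ℕ) : Braid n :=
  if h : 1 ≤ j ∧ j ≤ n - 1 then PresentedGroup.of ⟨j - 1, by omega⟩ else 1

/-- The product `σ_a σ_{a+1} ⋯ σ_b` in increasing order. -/
def up (n a b : ℕ) : Braid n := ((List.range' a (b + 1 - a)).map (sg n)).prod

/-- The product `σ_b σ_{b-1} ⋯ σ_a` in decreasing order. -/
def down (n a b : ℕ) : Braid n := ((List.range' a (b + 1 - a)).reverse.map (sg n)).prod

variable (k : Type u) [CommRing k]

/-- The coefficient ring `k[q, q⁻¹]`. -/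
abbrev Coef : Type u := LaurentPolynomial k

/-- The group algebra of the braid group over `k[q, q⁻¹]`. -/
abbrev BAlg (n : ℕ) : Type u := MonoidAlgebra (Coef k) (Braid n)

/-- An element of the braid group in the group algebra. -/
noncomputable abbrev gp (n : ℕ) (g : Braid n) : BAlg k n := MonoidAlgebra.of (Coef k) (Braid n) g

/-- The power `q ^ m` in the coefficient ring. -/
noncomputable abbrev qp (m : ℕ) : Coef k := LaurentPolynomial.T m

/-- `E_j = q^j (σ_j ⋯ σ_1)⁻¹ - σ_1 ⋯ σ_j`. -/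
noncomputable def E (n j : ℕ) : BAlg k n :=
  qp k j • gp k n (down n 1 j)⁻¹ - gp k n (up n 1 j)

/-- `F_j = q^{j-1} (σ_j ⋯ σ_1)⁻¹ - σ_1 ⋯ σ_j`. -/
noncomputable def F (n j : ℕ) : BAlg k n :=
  qp k (j - 1) • gp k n (down n 1 j)⁻¹ - gp k n (up n 1 j)

/-- `G_2 = q σ_2⁻¹ + 1 - q - σ_2` and `G_j = q^{j-1} (σ_j ⋯ σ_2)⁻¹ - σ_2 ⋯ σ_j` for `j ≥ 3`. -/
noncomputable def G (n j : ℕ) : BAlg k n :=
  if j = 2 then qp k 1 • gp k n (sg n 2)⁻¹ + 1 - qp k 1 • (1 : BAlg k n) - gp k n (sg n 2)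
  else qp k (j - 1) • gp k n (down n 2 j)⁻¹ - gp k n (up n 2 j)

/-- `X_2 = q σ_1⁻¹ + 1 - q - σ_1` and `X_j = E_{j-1} X_{j-1}` for `j ≥ 3` (the values at `j = 0, 1` are
never used). -/
noncomputable def X (n : ℕ) : ℕ → BAlg k n
  | 0 => 0
  | 1 => 0
  | 2 => qp k 1 • gp k n (sg n 1)⁻¹ + 1 - qp k 1 • (1 : BAlg k n) - gp k n (sg n 1)
  | (j + 3) => E k n (j + 2) * X n (j + 2)

/-- The relations `G_j X_j = F_j X_j`, `2 ≤ j ≤ n - 1`. -/
def ZRel (n : ℕ) (a b : BAlg k n) : Prop :=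
  ∃ j, 2 ≤ j ∧ j ≤ n - 1 ∧ a = G k n j * X k n j ∧ b = F k n j * X k n j

/-- The algebra `Z_n` over `k[q, q⁻¹]`. -/
abbrev Z (n : ℕ) : Type u := RingQuot (ZRel k n)

/-- The element `X_3` of `Z_n`. -/
noncomputable def X3 (n : ℕ) : Z k n := RingQuot.mkRingHom (ZRel k n) (X k n 3)

end definitions

section proof

variable {S : Type u} [CommRing S]

/-- The homomorphism from the braid group to the units sending every generator to `s`. -/
noncomputable def gHom (n : ℕ) (s : Sˣ) : Braid n →* Sˣ :=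
  PresentedGroup.toGroup (f := fun _ => s) (by
    rintro w (⟨i, j, h⟩ | ⟨i, j, h⟩)
    · simp
    · simp)

theorem gHom_sg (n : ℕ) (s : Sˣ) (j : ℕ) (h1 : 1 ≤ j) (h2 : j ≤ n - 1) :
    gHom n s (sg n j) = s := by
  unfold sg
  rw [dif_pos ⟨h1, h2⟩]
  unfold gHom
  rw [PresentedGroup.toGroup.of]

theorem gHom_prod (n : ℕ) (s : Sˣ) (l : List ℕ) (hl : ∀ j ∈ l, 1 ≤ j ∧ j ≤ n - 1) :
    gHom n s ((l.map (sg n)).prod) = s ^ l.length := by
  induction l with
  | nil => simp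
  | cons a l ih =>
    rw [List.map_cons, List.prod_cons, map_mul, ih fun j hj => hl j (List.mem_cons_of_mem _ hj),
      gHom_sg n s a (hl a List.mem_cons_self).1 (hl a List.mem_cons_self).2, List.length_cons,
      pow_succ']

theorem gHom_up (n : ℕ) (s : Sˣ) (a b : ℕ) (ha : 1 ≤ a) (hb : b ≤ n - 1) :
    gHom n s (up n a b) = s ^ (b + 1 - a) := by
  unfold up
  rw [gHom_prod, List.length_range']
  intro j hj
  rw [List.mem_range'_1] at hj
  omega

theorem gHom_down (n : ℕ) (s : Sˣ) (a b : ℕ) (ha : 1 ≤ a) (hb : b ≤ n - 1) :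
    gHom n s (down n a b) = s ^ (b + 1 - a) := by
  unfold down
  rw [gHom_prod, List.length_reverse, List.length_range']
  intro j hj
  rw [List.mem_reverse, List.mem_range'_1] at hj
  omega

variable (k : Type u) [CommRing k] [Algebra k S]

/-- The homomorphism from the group algebra to `S`. -/
noncomputable def φ (n : ℕ) (q s : Sˣ) : BAlg k n →+* S :=
  MonoidAlgebra.liftNCRingHom (LaurentPolynomial.eval₂ (algebraMap k S) q)
    ((Units.coeHom S).comp (gHom n s)) (fun _ _ => Commute.all _ _)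

theorem φ_smul (n : ℕ) (q s : Sˣ) (m : ℕ) (g : Braid n) :
    φ k n q s (qp k m • gp k n g) = (q : S) ^ m * (gHom n s g : S) := by
  unfold φ qp gp
  rw [MonoidAlgebra.of_apply, MonoidAlgebra.smul_single, smul_eq_mul, mul_one]
  rw [MonoidAlgebra.liftNCRingHom_single]
  simp

theorem φ_gp (n : ℕ) (q s : Sˣ) (g : Braid n) :
    φ k n q s (gp k n g) = (gHom n s g : S) := by
  have h := φ_smul k n q s 0 g
  unfold qp at h
  simpa using h

theorem φ_E (n : ℕ) (q s : Sˣ) (j : ℕ) (hj : j ≤ n - 1) :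
    φ k n q s (E k n j) = (q : S) ^ j * ((s⁻¹ : Sˣ) : S) ^ j - (s : S) ^ j := by
  unfold E
  rw [map_sub, φ_smul, φ_gp, map_inv, gHom_down n s 1 j le_rfl hj, gHom_up n s 1 j le_rfl hj]
  simp

theorem φ_F (n : ℕ) (q s : Sˣ) (j : ℕ) (hj : j ≤ n - 1) :
    φ k n q s (F k n j) = (q : S) ^ (j - 1) * ((s⁻¹ : Sˣ) : S) ^ j - (s : S) ^ j := by
  unfold F
  rw [map_sub, φ_smul, φ_gp, map_inv, gHom_down n s 1 j le_rfl hj, gHom_up n s 1 j le_rfl hj]
  simp

theorem φ_G2 (n : ℕ) (q s : Sˣ) (hn : 2 ≤ n - 1) :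
    φ k n q s (G k n 2) = (q : S) * ((s⁻¹ : Sˣ) : S) + 1 - (q : S) - (s : S) := by
  unfold G
  rw [if_pos rfl, map_sub, map_sub, map_add, φ_smul, φ_gp, map_one, map_inv,
    gHom_sg n s 2 (by omega) hn]
  have h := φ_smul k n q s 1 1
  rw [map_one, Units.val_one, mul_one, pow_one] at h
  have h1 : gp k n 1 = 1 := map_one _
  rw [h1] at h
  rw [h, pow_one]

theorem φ_G3 (n : ℕ) (q s : Sˣ) (hn : 3 ≤ n - 1) :
    φ k n q s (G k n 3) = (q : S) ^ 2 * ((s⁻¹ : Sˣ) : S) ^ 2 - (s : S) ^ 2 := by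
  unfold G
  rw [if_neg (by norm_num), map_sub, φ_smul, φ_gp, map_inv, gHom_down n s 2 3 (by omega) hn,
    gHom_up n s 2 3 (by omega) hn]
  simp

theorem φ_X2 (n : ℕ) (q s : Sˣ) (hn : 2 ≤ n - 1) :
    φ k n q s (X k n 2) = (q : S) * ((s⁻¹ : Sˣ) : S) + 1 - (q : S) - (s : S) := by
  unfold X
  rw [map_sub, map_sub, map_add, φ_smul, φ_gp, map_one, map_inv,
    gHom_sg n s 1 (by omega) (by omega)]
  have h := φ_smul k n q s 1 1
  rw [map_one, Units.val_one, mul_one, pow_one] at h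
  have h1 : gp k n 1 = 1 := map_one _
  rw [h1] at h
  rw [h, pow_one]

theorem φ_X_succ (n : ℕ) (q s : Sˣ) (j : ℕ) (hj : j + 2 ≤ n - 1) :
    φ k n q s (X k n (j + 3)) =
      ((q : S) ^ (j + 2) * ((s⁻¹ : Sˣ) : S) ^ (j + 2) - (s : S) ^ (j + 2)) *
        φ k n q s (X k n (j + 2)) := by
  rw [X, map_mul, φ_E k n q s (j + 2) hj]

/-- The key computation in a commutative ring with elements `z`, `e` such that `z² + z + 1 = 0`,
`e² = 0`. -/
theorem key (n : ℕ) (hn : 3 ≤ n) (z e : S) (hz : z ^ 2 + z + 1 = 0) (he : e ^ 2 = 0)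
    (q s : Sˣ) (hq : (q : S) = z) (hs : (s : S) = -z + e)
    (hs' : ((s⁻¹ : Sˣ) : S) = -z ^ 2 - z * e) :
    φ k n q s (X k n 3) = (z - 1) * e ∧
      ∀ a b, ZRel k n a b → φ k n q s a = φ k n q s b := by
  have hX2 : φ k n q s (X k n 2) = z * e := by
    rw [φ_X2 k n q s (by omega), hq, hs, hs']
    linear_combination (-z - e + 1) * hz
  have hX3 : φ k n q s (X k n 3) = (z - 1) * e := by
    rw [φ_X_succ k n q s 0 (by omega), hX2, hq, hs, hs']
    linear_combination (z ^ 5 * e - z ^ 4 * e + z ^ 2 * e - 2 * z * e + e) * hz +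
      (2 * z ^ 6 + z ^ 5 * e + 2 * z ^ 2 - z * e) * he
  refine ⟨hX3, ?_⟩
  have hX4 : 4 ≤ n → φ k n q s (X k n 4) = 0 := by
    intro h4
    rw [φ_X_succ k n q s 1 (by omega), hX3, hq, hs, hs']
    linear_combination (-z ^ 8 * e + 2 * z ^ 7 * e - z ^ 6 * e - z ^ 5 * e + 2 * z ^ 4 * e
        - z ^ 3 * e) * hz +
      (-3 * z ^ 9 - 3 * z ^ 8 * e + 3 * z ^ 8 - z ^ 7 * e ^ 2 + 3 * z ^ 7 * e + z ^ 6 * e ^ 2
        - 3 * z ^ 3 + 3 * z ^ 2 * e + 3 * z ^ 2 - z * e ^ 2 - 3 * z * e + e ^ 2) * he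
  have hXj : ∀ j, j + 4 ≤ n → φ k n q s (X k n (j + 4)) = 0 := by
    intro j
    induction j with
    | zero => exact hX4
    | succ j ih =>
      intro h
      rw [show j + 1 + 4 = (j + 2) + 3 from rfl, φ_X_succ k n q s (j + 2) (by omega),
        show j + 2 + 2 = j + 4 from rfl, ih (by omega), mul_zero]
  rintro a b ⟨j, h2, hj, rfl, rfl⟩
  rw [map_mul, map_mul]
  obtain rfl | rfl | h4 : j = 2 ∨ j = 3 ∨ 4 ≤ j := by omega
  · rw [hX2, φ_G2 k n q s hj, φ_F k n q s 2 hj, hq, hs, hs']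
    linear_combination ((-z ^ 2 * e + z * e) - (z ^ 4 * e - z ^ 3 * e)) * hz +
      ((-z ^ 3 - z) - (2 * z ^ 5 + z ^ 4 * e + 2 * z ^ 2 - z * e)) * he
  · rw [hX3, φ_G3 k n q s hj, φ_F k n q s 3 hj, hq, hs, hs']
    linear_combination (z ^ 7 * e - 2 * z ^ 6 * e + 2 * z ^ 5 * e - z ^ 4 * e - z ^ 3 * e
        + z ^ 2 * e) * hz +
      (3 * z ^ 8 + 3 * z ^ 7 * e - 3 * z ^ 7 + z ^ 6 * e ^ 2 - 3 * z ^ 6 * e + 2 * z ^ 6
        - z ^ 5 * e ^ 2 + z ^ 5 * e - 2 * z ^ 5 - z ^ 4 * e + 3 * z ^ 3 - 3 * z ^ 2 * e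
        - z ^ 2 + z * e ^ 2 + 2 * z * e - 2 * z - e ^ 2 + e) * he
  · obtain ⟨i, rfl⟩ := Nat.exists_eq_add_of_le' h4
    rw [hXj i (by omega), mul_zero, mul_zero]

end proof

/-- **`X₃ ≠ 0` in `Z_n` for every `n ≥ 3`**, over `k[q, q⁻¹]` for every nonzero commutative ring `k`
(in particular for `k = ℤ`). -/
theorem result (k : Type u) [CommRing k] [Nontrivial k] (n : ℕ) (hn : 3 ≤ n) : X3 k n ≠ 0 := by
  let f : Polynomial k := Polynomial.X ^ 2 + Polynomial.X + 1
  have hfd : f.natDegree = 2 := by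
    show (Polynomial.X ^ 2 + Polynomial.X + 1 : Polynomial k).natDegree = 2
    compute_degree!
  have hfm : f.Monic := by
    show (Polynomial.X ^ 2 + Polynomial.X + 1 : Polynomial k).Monic
    monicity!
  let T := AdjoinRoot f
  let z : T := AdjoinRoot.root f
  have hz : z ^ 2 + z + 1 = 0 := by
    have h := AdjoinRoot.eval₂_root f
    simpa [f] using h
  have hz1 : z - 1 ≠ 0 := by
    intro h
    have h1 : AdjoinRoot.mk f (Polynomial.X - 1) = 0 := by
      rw [map_sub, map_one, AdjoinRoot.mk_X]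
      exact h
    rw [AdjoinRoot.mk_eq_zero] at h1
    refine hfm.not_dvd_of_natDegree_lt ?_ ?_ h1
    · intro h2
      have h3 := congrArg (fun p => Polynomial.coeff p 1) h2
      simp [Polynomial.coeff_X, Polynomial.coeff_one] at h3
    · rw [hfd]
      have : (Polynomial.X - 1 : Polynomial k).natDegree = 1 := by
        have := Polynomial.natDegree_X_sub_C (1 : k)
        rwa [map_one] at this
      rw [this]
      norm_num
  let S := DualNumber T
  let Z : S := TrivSqZeroExt.inl z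
  let e : S := DualNumber.eps
  have hZ : Z ^ 2 + Z + 1 = 0 := by
    have h1 := congrArg (TrivSqZeroExt.inlHom T T) hz
    rw [map_add, map_add, map_pow, map_one, map_zero] at h1
    exact h1
  have he : e ^ 2 = 0 := by
    rw [pow_two]
    exact DualNumber.eps_mul_eps
  let q : Sˣ := ⟨Z, Z ^ 2, by linear_combination (Z - 1) * hZ, by linear_combination (Z - 1) * hZ⟩
  let s : Sˣ := ⟨-Z + e, -Z ^ 2 - Z * e, by linear_combination (Z - 1) * hZ - Z * he,
    by linear_combination (Z - 1) * hZ - Z * he⟩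
  obtain ⟨h3, hrel⟩ := key (S := S) k n hn Z e hZ he q s rfl rfl rfl
  intro h0
  have h4 : RingQuot.lift ⟨φ k n q s, fun a b h => hrel a b h⟩ (X3 k n) = φ k n q s (X k n 3) := by
    unfold X3
    rw [RingQuot.lift_mkRingHom_apply]
  rw [h0, map_zero, h3] at h4
  have h5 := congrArg TrivSqZeroExt.snd h4
  rw [TrivSqZeroExt.snd_zero, TrivSqZeroExt.snd_mul] at h5
  simp [Z, e] at h5
  exact hz1 h5.symm

end Pool.Agent.Results.MP_2b4a1d_al.X3Nonzero
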